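import Pool.Agent.Run7.h74.UC.Iface
import Pool.Agent.Q176.UM.TOR

set_option autoImplicit false

/-!
Project UC (helper74), piece DIA: the diagonal.
-/

namespace Pool.Agent.Run7.h151.UC

open Filter Topology MeasureTheory Complex
open Pool.Agent.Q97.UM Pool.Agent.Q176.UM
open Pool.Agent.Run7.h74.DW (wt)
open Pool.Agent.Run7.h74.UC

noncomputable section

/-! ### polarisation -/

theorem pol (u v : ℂ) : u * (starRingEnd ℂ) v = 1 / 4 * (((‖u + v‖ ^ 2 : ℝ) : ℂ) + I * ((‖u + I * v‖ ^ 2 : ℝ) : ℂ) -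
    ((‖u - v‖ ^ 2 : ℝ) : ℂ) - I * ((‖u - I * v‖ ^ 2 : ℝ) : ℂ)) := by
  have h : ∀ z : ℂ, ((‖z‖ ^ 2 : ℝ) : ℂ) = z * (starRingEnd ℂ) z := by
    intro z
    rw [Complex.mul_conj, Complex.normSq_eq_norm_sq]
  rw [h, h, h, h]
  simp only [map_add, map_sub, map_mul, Complex.conj_I]
  have hI : I * I = -1 := Complex.I_mul_I
  linear_combination (1 / 2 * (u * (starRingEnd ℂ) v - v * (starRingEnd ℂ) u)) * hI

theorem dp_lin (M : ℕ) (c c' : ℕ → ℂ) (w : ℂ) (t : ℝ) :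
    dp M (fun n => c n + w * c' n) t = dp M c t + w * dp M c' t := by
  unfold dp
  rw [Finset.mul_sum, ← Finset.sum_add_distrib]
  exact Finset.sum_congr rfl fun n _ => by ring

theorem N2_lin (M : ℕ) (c c' : ℕ → ℂ) (w : ℂ) (hw : ‖w‖ = 1) :
    N2 M (fun n => c n + w * c' n) ≤ 2 * (N2 M c + N2 M c') := by
  unfold N2
  rw [← Finset.sum_add_distrib, Finset.mul_sum]
  refine Finset.sum_le_sum fun n _ => ?_
  have h1 : ‖c n + w * c' n‖ ≤ ‖c n‖ + ‖c' n‖ := by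
    refine (norm_add_le _ _).trans ?_
    rw [norm_mul, hw, one_mul]
  have h2 : ‖c n + w * c' n‖ ^ 2 ≤ 2 * (‖c n‖ ^ 2 + ‖c' n‖ ^ 2) := by
    have h3 : ‖c n + w * c' n‖ ^ 2 ≤ (‖c n‖ + ‖c' n‖) ^ 2 := pow_le_pow_left₀ (norm_nonneg _) h1 2
    nlinarith [sq_nonneg (‖c n‖ - ‖c' n‖)]
  have h4 : (0 : ℝ) ≤ (n : ℝ) := Nat.cast_nonneg n
  calc ‖c n + w * c' n‖ ^ 2 / (n : ℝ) ≤ 2 * (‖c n‖ ^ 2 + ‖c' n‖ ^ 2) / (n : ℝ) :=
        div_le_div_of_nonneg_right h2 h4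
    _ = 2 * (‖c n‖ ^ 2 / n + ‖c' n‖ ^ 2 / n) := by ring

/-- the diagonal -/
def dg (M : ℕ) (c c' : ℕ → ℂ) : ℂ := ∑ n ∈ Finset.Icc 1 M, c n * (starRingEnd ℂ) (c' n) / (n : ℂ)

theorem dg_pol (M : ℕ) (c c' : ℕ → ℂ) : dg M c c' =
    1 / 4 * (((N2 M (fun n => c n + 1 * c' n) : ℝ) : ℂ) + I * ((N2 M (fun n => c n + I * c' n) : ℝ) : ℂ) -
    ((N2 M (fun n => c n + (-1) * c' n) : ℝ) : ℂ) - I * ((N2 M (fun n => c n + (-I) * c' n) : ℝ) : ℂ)) := by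
  unfold dg N2
  push_cast
  rw [Finset.mul_sum, Finset.mul_sum, ← Finset.sum_add_distrib, ← Finset.sum_sub_distrib,
    ← Finset.sum_sub_distrib, Finset.mul_sum]
  refine Finset.sum_congr rfl fun n _ => ?_
  have h := pol (c n) (c' n)
  push_cast at h
  rw [h]
  have e1 : c n + (-1) * c' n = c n - c' n := by ring
  have e2 : c n + (-I) * c' n = c n - I * c' n := by ring
  rw [e1, e2, one_mul]
  ring

/-- weighted integral of a product, by polarisation -/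
theorem wt_pol {T : ℝ} {M : ℕ} (c c' : ℕ → ℂ) (hT : 0 ≤ T)
    (h : ∀ c : ℕ → ℂ, |(∫ t in (T / 2)..(3 * T), wt (T / 2) (3 * T) t * ‖dp M c t‖ ^ 2) - 5 / 3 * T * N2 M c| ≤
      T ^ (1 / 4 : ℝ) * N2 M c) :
    ‖(∫ t in (T / 2)..(3 * T), (wt (T / 2) (3 * T) t : ℂ) * (dp M c t * (starRingEnd ℂ) (dp M c' t))) -
      ((5 / 3 * T : ℝ) : ℂ) * dg M c c'‖ ≤ 2 * T ^ (1 / 4 : ℝ) * (N2 M c + N2 M c') := by
  have hwc : Continuous (fun t : ℝ => wt (T / 2) (3 * T) t) := by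
    unfold wt
    fun_prop
  set G : ℂ → ℝ → ℝ := fun w t => wt (T / 2) (3 * T) t * ‖dp M (fun n => c n + w * c' n) t‖ ^ 2 with hG
  have hGc : ∀ w, Continuous (G w) := fun w => hwc.mul ((dp_cont M _).norm.pow 2)
  have hGi : ∀ w, IntervalIntegrable (fun t => ((G w t : ℝ) : ℂ)) volume (T / 2) (3 * T) := fun w =>
    (Complex.continuous_ofReal.comp (hGc w)).intervalIntegrable _ _
  have h1 : ∀ t : ℝ, (wt (T / 2) (3 * T) t : ℂ) * (dp M c t * (starRingEnd ℂ) (dp M c' t)) =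
      1 / 4 * (((G 1 t : ℝ) : ℂ) + I * ((G I t : ℝ) : ℂ) - ((G (-1) t : ℝ) : ℂ) - I * ((G (-I) t : ℝ) : ℂ)) := by
    intro t
    rw [pol (dp M c t) (dp M c' t)]
    simp only [hG]
    rw [dp_lin, dp_lin, dp_lin, dp_lin]
    have e1 : dp M c t + (-1) * dp M c' t = dp M c t - dp M c' t := by ring
    have e2 : dp M c t + (-I) * dp M c' t = dp M c t - I * dp M c' t := by ring
    rw [e1, e2, one_mul]
    push_cast
    ring
  have h2 : (∫ t in (T / 2)..(3 * T), (wt (T / 2) (3 * T) t : ℂ) * (dp M c t * (starRingEnd ℂ) (dp M c' t))) =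
      1 / 4 * (((∫ t in (T / 2)..(3 * T), G 1 t : ℝ) : ℂ) + I * ((∫ t in (T / 2)..(3 * T), G I t : ℝ) : ℂ) -
        ((∫ t in (T / 2)..(3 * T), G (-1) t : ℝ) : ℂ) - I * ((∫ t in (T / 2)..(3 * T), G (-I) t : ℝ) : ℂ)) := by
    rw [intervalIntegral.integral_congr (g := fun t => 1 / 4 * (((G 1 t : ℝ) : ℂ) + I * ((G I t : ℝ) : ℂ) -
      ((G (-1) t : ℝ) : ℂ) - I * ((G (-I) t : ℝ) : ℂ))) (fun t _ => h1 t)]
    rw [intervalIntegral.integral_const_mul, intervalIntegral.integral_sub, intervalIntegral.integral_sub,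
      intervalIntegral.integral_add, intervalIntegral.integral_const_mul, intervalIntegral.integral_const_mul,
      intervalIntegral.integral_ofReal, intervalIntegral.integral_ofReal, intervalIntegral.integral_ofReal,
      intervalIntegral.integral_ofReal]
    · exact hGi 1
    · exact (hGi I).const_mul I
    · exact (hGi 1).add ((hGi I).const_mul I)
    · exact hGi (-1)
    · exact ((hGi 1).add ((hGi I).const_mul I)).sub (hGi (-1))
    · exact (hGi (-I)).const_mul I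
  rw [h2, dg_pol]
  set P : ℂ → ℝ := fun w => (∫ t in (T / 2)..(3 * T), G w t) - 5 / 3 * T * N2 M (fun n => c n + w * c' n) with hP
  have h3 : ∀ w : ℂ, ‖w‖ = 1 → |P w| ≤ T ^ (1 / 4 : ℝ) * (2 * (N2 M c + N2 M c')) := by
    intro w hw
    refine (h _).trans ?_
    exact mul_le_mul_of_nonneg_left (N2_lin M c c' w hw) (Real.rpow_nonneg hT _)
  have h4 : 1 / 4 * (((∫ t in (T / 2)..(3 * T), G 1 t : ℝ) : ℂ) + I * ((∫ t in (T / 2)..(3 * T), G I t : ℝ) : ℂ) -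
        ((∫ t in (T / 2)..(3 * T), G (-1) t : ℝ) : ℂ) - I * ((∫ t in (T / 2)..(3 * T), G (-I) t : ℝ) : ℂ)) -
      ((5 / 3 * T : ℝ) : ℂ) * (1 / 4 * (((N2 M (fun n => c n + 1 * c' n) : ℝ) : ℂ) + I * ((N2 M (fun n => c n + I * c' n) : ℝ) : ℂ) -
    ((N2 M (fun n => c n + (-1) * c' n) : ℝ) : ℂ) - I * ((N2 M (fun n => c n + (-I) * c' n) : ℝ) : ℂ))) =
      1 / 4 * (((P 1 : ℝ) : ℂ) + I * ((P I : ℝ) : ℂ) - ((P (-1) : ℝ) : ℂ) - I * ((P (-I) : ℝ) : ℂ)) := by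
    simp only [hP]
    push_cast
    ring
  rw [h4]
  have h5 : ∀ r : ℝ, ‖((r : ℝ) : ℂ)‖ = |r| := fun r => by rw [Complex.norm_real, Real.norm_eq_abs]
  have k1 := h3 1 (by simp)
  have k2 := h3 I (by simp)
  have k3 := h3 (-1) (by simp)
  have k4 := h3 (-I) (by simp)
  have h6 : ‖((P 1 : ℝ) : ℂ) + I * ((P I : ℝ) : ℂ) - ((P (-1) : ℝ) : ℂ) - I * ((P (-I) : ℝ) : ℂ)‖ ≤
      |P 1| + |P I| + |P (-1)| + |P (-I)| := by
    refine (norm_sub_le _ _).trans ?_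
    refine add_le_add ((norm_sub_le _ _).trans (add_le_add ((norm_add_le _ _).trans (add_le_add ?_ ?_)) ?_)) ?_
    · rw [h5]
    · rw [norm_mul, h5]; simp
    · rw [h5]
    · rw [norm_mul, h5]; simp
  rw [norm_mul]
  have h7 : ‖(1 / 4 : ℂ)‖ = 1 / 4 := by norm_num
  rw [h7]
  linarith

/-! ### the mean over `V → ∞` -/

/-- `c n n^{-1/2}` on `[1, M]` -/
def fq (M : ℕ) (c : ℕ → ℂ) (n : ℕ) : ℂ := if n ∈ Finset.Icc 1 M then c n * (n : ℂ) ^ (-(1 / 2) : ℂ) else 0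

theorem fq_FS (M : ℕ) (c : ℕ → ℂ) : FS (fq M c) := by
  refine ⟨by simp [fq], (Finset.finite_toSet (Finset.Icc 1 M)).subset fun n hn => ?_⟩
  by_contra hcon
  apply hn
  unfold fq
  rw [if_neg]
  exact hcon

theorem fq_Fd (M : ℕ) (c : ℕ → ℂ) (t : ℝ) : Fd (fq M c) t = dp M c t := by
  unfold Fd dp
  rw [tsum_eq_sum (s := Finset.Icc 1 M)]
  · refine Finset.sum_congr rfl fun n hn => ?_
    unfold fq
    rw [if_pos hn, mul_assoc]
    congr 1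
    have hn0 : (n : ℂ) ≠ 0 := by
      have := (Finset.mem_Icc.1 hn).1
      exact_mod_cast (by omega : n ≠ 0)
    rw [← Complex.cpow_add _ _ hn0]
    congr 1
    ring
  · intro n hn
    unfold fq
    rw [if_neg hn, zero_mul]

theorem fq_dg (M : ℕ) (c c' : ℕ → ℂ) : ∑' n, fq M c n * (starRingEnd ℂ) (fq M c' n) = dg M c c' := by
  unfold dg
  rw [tsum_eq_sum (s := Finset.Icc 1 M)]
  · refine Finset.sum_congr rfl fun n hn => ?_
    unfold fq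
    rw [if_pos hn, if_pos hn, map_mul]
    have hn1 := (Finset.mem_Icc.1 hn).1
    have hn0 : (0 : ℝ) < n := by exact_mod_cast hn1
    have h1 : (n : ℂ) ^ (-(1 / 2) : ℂ) * (starRingEnd ℂ) ((n : ℂ) ^ (-(1 / 2) : ℂ)) = 1 / (n : ℂ) := by
      rw [Complex.mul_conj, Complex.normSq_eq_norm_sq, Complex.norm_natCast_cpow_of_pos (by omega)]
      have h2 : ((-(1 / 2) : ℂ)).re = -(1 / 2 : ℝ) := by
        simp
      rw [h2, ← Real.rpow_natCast, ← Real.rpow_mul hn0.le]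
      have h3 : (-(1 / 2) : ℝ) * ((2 : ℕ) : ℝ) = -1 := by norm_num
      rw [h3, Real.rpow_neg_one]
      push_cast
      rw [one_div]
    calc c n * (n : ℂ) ^ (-(1 / 2) : ℂ) * ((starRingEnd ℂ) (c' n) * (starRingEnd ℂ) ((n : ℂ) ^ (-(1 / 2) : ℂ))) =
        c n * (starRingEnd ℂ) (c' n) * ((n : ℂ) ^ (-(1 / 2) : ℂ) * (starRingEnd ℂ) ((n : ℂ) ^ (-(1 / 2) : ℂ))) := by ring
      _ = _ := by rw [h1]; ring
  · intro n hn
    unfold fq
    rw [if_neg hn, zero_mul]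

theorem lim_dg (hLIM : S_LIM) (M : ℕ) (c c' : ℕ → ℂ) :
    Tendsto (fun V : ℝ => ((V⁻¹ : ℝ) : ℂ) * ∫ t in V..(2 * V), dp M c t * (starRingEnd ℂ) (dp M c' t)) atTop
      (𝓝 (dg M c c')) := by
  have h := hLIM (fq M c) (fq M c') (fq_FS M c) (fq_FS M c')
  rw [fq_dg] at h
  simpa only [fq_Fd] using h

/-! ### the product `E B` -/

theorem EB (hCOF : S_COF) (hDPM : S_DPM) {κ D : ℝ} (hκ : 4 ≤ κ) (hD : 1 ≤ D) (α α2 : ℕ → ℂ) (j₀ N : ℕ)
    (b : ℕ → ℂ) (hb : ∀ n, b n ≠ 0 → 1 ≤ n ∧ n ≤ N) (t : ℝ) :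
    dp (M9 D κ * N) (cv (ebk D κ α α2 j₀ (JB D - j₀)) b) t = Ef D κ α α2 j₀ t * dp N b t := by
  obtain ⟨h1, h2, -⟩ := hCOF κ D (by linarith) hD α α2 α α2 j₀ 0
  rw [← h2 t]
  symm
  refine hDPM.1 _ _ _ _ t (fun n hn => ?_) (fun n hn => ?_)
  · by_contra hcon
    have := (h1 n hcon).2
    omega
  · by_contra hcon
    have := (hb n hcon).2
    omega

theorem EB_N2 (hTEX : S_TEX) (hCOF : S_COF) (hDPM : S_DPM) (hMVL : S_MVL) {C : ℝ}
    (hC : ∀ D : ℝ, 1 ≤ D → ∀ a a2 : Fin 1 → ℕ → ℂ, (∀ i n, ‖a i n‖ ≤ 1) → (∀ i n, ‖a2 i n‖ ≤ 1) →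
      ∀ (M : ℕ) (c : ℕ → ℂ), 1 ≤ M → Real.log M ≤ 1 * D → (∀ n, c n ≠ 0 → 1 ≤ n ∧ n ≤ M) → ∀ j : ℕ,
        MB (fun t => ‖dp M c t‖ ^ 2 * Real.exp (2 * ∑ i, ∑ l ∈ Finset.range (j + 1), ‖zf D (a i) (a2 i) l t‖))
          (Real.exp (C * Real.exp ((j : ℝ) / 2)) * N2 M c))
    {κ D : ℝ} (hκ : 4 ≤ κ) (hD : 1 ≤ D) (α α2 : ℕ → ℂ) (hα : ∀ n, ‖α n‖ ≤ 1) (hα2 : ∀ n, ‖α2 n‖ ≤ 1)
    (j₀ N : ℕ) (b : ℕ → ℂ) (hN : 1 ≤ N) (hND : Real.log N ≤ D) (hb : ∀ n, b n ≠ 0 → 1 ≤ n ∧ n ≤ N) :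
    N2 (M9 D κ * N) (cv (ebk D κ α α2 j₀ (JB D - j₀)) b) ≤
      2 * (Real.exp (C * Real.exp ((JB D : ℝ) / 2)) * N2 N b) := by
  apply N2_le hMVL
  have h1 := hC D hD (fun _ => α) (fun _ => α2) (fun _ n => hα n) (fun _ n => hα2 n) N b hN
    (by rwa [one_mul]) hb (JB D)
  refine MB.mono ((dp_cont _ _).norm.pow 2) ?_ (fun t => ?_) h1
  · refine ((dp_cont _ _).norm.pow 2).mul (Real.continuous_exp.comp (continuous_const.mul ?_))
    refine continuous_finsetSum _ fun i _ => continuous_finsetSum _ fun l _ => ?_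
    exact (zf_cont D α α2 l).norm
  · rw [EB hCOF hDPM hκ hD α α2 j₀ N b hb t, norm_mul, mul_pow, mul_comm]
    refine mul_le_mul_of_nonneg_left ?_ (sq_nonneg _)
    have h2 : ‖Ef D κ α α2 j₀ t‖ ≤ Real.exp (∑ l ∈ Finset.range (JB D + 1), ‖zf D α α2 l t‖) := by
      unfold Ef
      rw [norm_prod]
      calc ∏ l ∈ Finset.Ico j₀ (JB D), ‖TEx (R9 κ l) (zf D α α2 l t)‖ ≤
          ∏ l ∈ Finset.Ico j₀ (JB D), Real.exp ‖zf D α α2 l t‖ := by
            refine Finset.prod_le_prod (fun _ _ => norm_nonneg _) fun l _ => ?_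
            refine (hTEX (R9 κ l) _ ?_).1
            unfold R9
            exact Nat.one_le_ceil_iff.2 (by positivity)
        _ = Real.exp (∑ l ∈ Finset.Ico j₀ (JB D), ‖zf D α α2 l t‖) := (Real.exp_sum _ _).symm
        _ ≤ Real.exp (∑ l ∈ Finset.range (JB D + 1), ‖zf D α α2 l t‖) := by
            refine Real.exp_le_exp.2 (Finset.sum_le_sum_of_subset_of_nonneg ?_ fun _ _ _ => norm_nonneg _)
            intro l hl
            rw [Finset.mem_Ico] at hl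
            rw [Finset.mem_range]
            omega
    calc ‖Ef D κ α α2 j₀ t‖ ^ 2 ≤ Real.exp (∑ l ∈ Finset.range (JB D + 1), ‖zf D α α2 l t‖) ^ 2 :=
          pow_le_pow_left₀ (norm_nonneg _) h2 2
      _ = Real.exp (2 * ∑ i : Fin 1, ∑ l ∈ Finset.range (JB D + 1), ‖zf D α α2 l t‖) := by
          rw [← Real.exp_nat_mul]
          simp

/-! ### growth -/

theorem grow (C δ : ℝ) : ∀ᶠ T : ℝ in atTop,
    8 * Real.exp (C * (3 * Real.sqrt (δ * Real.log T))) ≤ T ^ (1 / 4 : ℝ) := by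
  have h1 : Tendsto (fun T : ℝ => Real.log T) atTop atTop := Real.tendsto_log_atTop
  have h2 : ∀ᶠ y : ℝ in atTop, Real.log 8 + C * (3 * Real.sqrt (δ * y)) ≤ 1 / 4 * y := by
    have h3 : Tendsto (fun y : ℝ => Real.sqrt y) atTop atTop := Real.tendsto_sqrt_atTop
    filter_upwards [h3.eventually_ge_atTop (8 * Real.log 8 + 1),
      h3.eventually_ge_atTop (24 * (|C| * Real.sqrt |δ|) + 1), eventually_ge_atTop (0 : ℝ)] with y h4 h5 h6
    have h7 : Real.sqrt (δ * y) ≤ Real.sqrt |δ| * Real.sqrt y := by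
      rw [← Real.sqrt_mul (abs_nonneg _)]
      exact Real.sqrt_le_sqrt (mul_le_mul_of_nonneg_right (le_abs_self _) h6)
    have h8 : C * (3 * Real.sqrt (δ * y)) ≤ 3 * (|C| * Real.sqrt |δ|) * Real.sqrt y := by
      calc C * (3 * Real.sqrt (δ * y)) ≤ |C| * (3 * Real.sqrt (δ * y)) :=
            mul_le_mul_of_nonneg_right (le_abs_self _) (by positivity)
        _ ≤ |C| * (3 * (Real.sqrt |δ| * Real.sqrt y)) := by gcongr
        _ = _ := by ring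
    have h9 : Real.sqrt y * Real.sqrt y = y := Real.mul_self_sqrt h6
    have h10 : 0 ≤ Real.log 8 := Real.log_nonneg (by norm_num)
    have h11 : 1 ≤ Real.sqrt y := by
      have : 0 ≤ 24 * (|C| * Real.sqrt |δ|) := by positivity
      linarith
    nlinarith [Real.sqrt_nonneg y]
  filter_upwards [h1.eventually h2, eventually_gt_atTop (0 : ℝ)] with T h3 h4
  rw [Real.rpow_def_of_pos h4, show Real.log T * (1 / 4) = 1 / 4 * Real.log T by ring]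
  calc 8 * Real.exp (C * (3 * Real.sqrt (δ * Real.log T))) =
      Real.exp (Real.log 8 + C * (3 * Real.sqrt (δ * Real.log T))) := by
        rw [Real.exp_add, Real.exp_log (by norm_num)]
    _ ≤ _ := Real.exp_le_exp.2 h3

theorem t_DIA : J_DIA := by
  intro hLIM hWTM hTEX hCOF hDPM hXM hMVL κ hκ
  obtain ⟨C, hC1, hC⟩ := hXM 1 2 1 1 le_rfl (by norm_num) le_rfl
  refine ⟨1 / (100 * (26 * κ + 1)), by positivity, fun δ hδ hδ₀ => ?_⟩
  have hδ' : (26 * κ + 1) * δ ≤ 1 / 100 := by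
    have h0 : 0 < 26 * κ + 1 := by linarith
    calc (26 * κ + 1) * δ ≤ (26 * κ + 1) * (1 / (100 * (26 * κ + 1))) := mul_le_mul_of_nonneg_left hδ₀ h0.le
      _ = 1 / 100 := by field_simp
  filter_upwards [hWTM, grow C δ, Real.tendsto_log_atTop.eventually_ge_atTop (1 / δ),
    eventually_ge_atTop (1 : ℝ)] with T hW hgr hlog hT1 a a2 ha ha2 N b hN hNT hb j₀
  set D : ℝ := δ * Real.log T with hDdef
  have hT0 : 0 < T := by linarith
  have hD : 1 ≤ D := by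
    have := mul_le_mul_of_nonneg_left hlog hδ.le
    rwa [mul_one_div_cancel hδ.ne'] at this
  have hN0 : (0 : ℝ) < N := by exact_mod_cast hN
  have hND : Real.log N ≤ D := by
    have h1 := Real.log_le_log hN0 hNT
    rwa [Real.log_rpow hT0] at h1
  have hM : ((M9 D κ * N : ℕ) : ℝ) ≤ T ^ (1 / 100 : ℝ) := by
    have h1 : ((M9 D κ : ℕ) : ℝ) ≤ T ^ (26 * κ * δ) := by
      have h2 : ((M9 D κ : ℕ) : ℝ) ≤ Real.exp (26 * κ * D) := Nat.floor_le (Real.exp_pos _).le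
      refine h2.trans (le_of_eq ?_)
      rw [Real.rpow_def_of_pos hT0, hDdef]
      congr 1
      ring
    calc ((M9 D κ * N : ℕ) : ℝ) = (M9 D κ : ℝ) * (N : ℝ) := by push_cast; ring
      _ ≤ T ^ (26 * κ * δ) * T ^ δ := mul_le_mul h1 hNT hN0.le (Real.rpow_nonneg hT0.le _)
      _ = T ^ ((26 * κ + 1) * δ) := by
          rw [← Real.rpow_add hT0]
          congr 1
          ring
      _ ≤ T ^ (1 / 100 : ℝ) := Real.rpow_le_rpow_of_exponent_le hT1 hδ'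
  have hI : ‖I / 2‖ = 1 / 2 := by simp
  have hI' : ‖-(I / 2)‖ = 1 / 2 := by rw [norm_neg, hI]
  have hb1 : ∀ (w : ℂ), ‖w‖ = 1 / 2 → ∀ f : ℕ → ℂ, (∀ n, ‖f n‖ ≤ 1) → ∀ n, ‖w * f n‖ ≤ 1 := by
    intro w hw f hf n
    rw [norm_mul, hw]
    have := hf n
    linarith [norm_nonneg (f n)]
  set c : ℕ → ℂ := cv (ebk D κ (fun n => I / 2 * a n) (fun n => I / 2 * a2 n) j₀ (JB D - j₀)) b with hc
  set c' : ℕ → ℂ := cv (ebk D κ (fun n => -(I / 2) * a n) (fun n => -(I / 2) * a2 n) j₀ (JB D - j₀)) b with hc'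
  have hprod : ∀ t : ℝ, OG D κ a a2 j₀ t * ((‖dp N b t‖ ^ 2 : ℝ) : ℂ) =
      dp (M9 D κ * N) c t * (starRingEnd ℂ) (dp (M9 D κ * N) c' t) := by
    intro t
    have h1 : dp (M9 D κ * N) c t = E1 D κ a a2 j₀ t * dp N b t :=
      EB hCOF hDPM hκ hD _ _ j₀ N b hb t
    have h2 : dp (M9 D κ * N) c' t = E2 D κ a a2 j₀ t * dp N b t :=
      EB hCOF hDPM hκ hD _ _ j₀ N b hb t
    have h3 : ((‖dp N b t‖ ^ 2 : ℝ) : ℂ) = dp N b t * (starRingEnd ℂ) (dp N b t) := by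
      rw [Complex.mul_conj, Complex.normSq_eq_norm_sq]
    rw [h1, h2, h3, map_mul]
    unfold OG
    ring
  refine ⟨dg (M9 D κ * N) c c', ?_, ?_⟩
  · have h1 := wt_pol c c' hT0.le (fun c => hW (M9 D κ * N) hM c)
    have h2 : (∫ t in (T / 2)..(3 * T), (wt (T / 2) (3 * T) t : ℂ) * (OG D κ a a2 j₀ t * ((‖dp N b t‖ ^ 2 : ℝ) : ℂ))) =
        ∫ t in (T / 2)..(3 * T), (wt (T / 2) (3 * T) t : ℂ) * (dp (M9 D κ * N) c t * (starRingEnd ℂ) (dp (M9 D κ * N) c' t)) :=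
      intervalIntegral.integral_congr fun t _ => by
        simp only [hprod t]
    rw [h2]
    refine h1.trans ?_
    have hN2 := N2_nn N b
    have h3 : N2 (M9 D κ * N) c ≤ 2 * (Real.exp (C * Real.exp ((JB D : ℝ) / 2)) * N2 N b) :=
      EB_N2 hTEX hCOF hDPM hMVL hC hκ hD _ _ (hb1 _ hI a ha) (hb1 _ hI a2 ha2) j₀ N b hN hND hb
    have h4 : N2 (M9 D κ * N) c' ≤ 2 * (Real.exp (C * Real.exp ((JB D : ℝ) / 2)) * N2 N b) :=
      EB_N2 hTEX hCOF hDPM hMVL hC hκ hD _ _ (hb1 _ hI' a ha) (hb1 _ hI' a2 ha2) j₀ N b hN hND hb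
    have h5 : Real.exp (C * Real.exp ((JB D : ℝ) / 2)) ≤ Real.exp (C * (3 * Real.sqrt D)) :=
      Real.exp_le_exp.2 (mul_le_mul_of_nonneg_left (JB_le hD) (by linarith))
    have h6 : T ^ (1 / 4 : ℝ) * T ^ (1 / 4 : ℝ) = T ^ (1 / 2 : ℝ) := by
      rw [← Real.rpow_add hT0]
      norm_num
    have h7 : 0 ≤ T ^ (1 / 4 : ℝ) := Real.rpow_nonneg hT0.le _
    calc 2 * T ^ (1 / 4 : ℝ) * (N2 (M9 D κ * N) c + N2 (M9 D κ * N) c') ≤
        2 * T ^ (1 / 4 : ℝ) * (2 * (Real.exp (C * (3 * Real.sqrt D)) * N2 N b) +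
          2 * (Real.exp (C * (3 * Real.sqrt D)) * N2 N b)) := by
          refine mul_le_mul_of_nonneg_left (add_le_add (h3.trans ?_) (h4.trans ?_)) (by positivity)
          · gcongr
          · gcongr
      _ = T ^ (1 / 4 : ℝ) * (8 * Real.exp (C * (3 * Real.sqrt D))) * N2 N b := by ring
      _ ≤ T ^ (1 / 4 : ℝ) * T ^ (1 / 4 : ℝ) * N2 N b := by gcongr
      _ = T ^ (1 / 2 : ℝ) * N2 N b := by rw [h6]
  · have h1 := lim_dg hLIM (M9 D κ * N) c c'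
    simpa only [hprod] using h1

end

end Pool.Agent.Run7.h151.UC
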